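import Pool.Agent.LSG.StmtsC

/-!
Squad LSG (MP_005a41_gt), row CZE: continuous functions on the product with a convergent sequence.
-/

set_option autoImplicit false

open MeasureTheory Set Topology Filter

namespace Pool.Agent.LSG.H27

variable {Y : Type} [TopologicalSpace Y]

/-- extension by `0` at infinity -/
def ex (u : Y → ℕ → ℝ) : Y × OnePoint ℕ → ℝ := fun p =>
  Option.elim (show Option ℕ from p.2) 0 (fun n => u p.1 n)

omit [TopologicalSpace Y] in
theorem ex_infty (u : Y → ℕ → ℝ) (y : Y) : ex u (y, OnePoint.infty) = 0 := rfl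

omit [TopologicalSpace Y] in
theorem ex_coe (u : Y → ℕ → ℝ) (y : Y) (n : ℕ) : ex u (y, (n : OnePoint ℕ)) = u y n := rfl

omit [TopologicalSpace Y] in
theorem fun_ext {f g : Y × OnePoint ℕ → ℝ} (h0 : ∀ y, f (y, OnePoint.infty) = g (y, OnePoint.infty))
    (h1 : ∀ (y : Y) (n : ℕ), f (y, (n : OnePoint ℕ)) = g (y, (n : OnePoint ℕ))) : f = g := by
  funext p
  obtain ⟨y, x⟩ := p
  induction x using OnePoint.rec with
  | infty => exact h0 y
  | coe n => exact h1 y n

theorem coe_tendsto : Tendsto (fun n : ℕ => (n : OnePoint ℕ)) atTop (𝓝 OnePoint.infty) := by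
  have h := OnePoint.tendsto_coe_infty (X := ℕ)
  rwa [Filter.coclosedCompact_eq_cocompact, Filter.cocompact_eq_cofinite,
    Nat.cofinite_eq_atTop] at h

theorem ex_cont {u : Y → ℕ → ℝ} (h1 : ∀ n, Continuous fun y => u y n)
    (h2 : ∀ y0, Tendsto (fun p : Y × ℕ => u p.1 p.2) (𝓝 y0 ×ˢ atTop) (𝓝 0)) :
    Continuous (ex u) := by
  rw [continuous_iff_continuousAt]
  rintro ⟨y0, x⟩
  induction x using OnePoint.rec with
  | infty =>
    rw [ContinuousAt, nhds_prod_eq, OnePoint.nhds_infty_eq, Filter.coclosedCompact_eq_cocompact,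
      Filter.cocompact_eq_cofinite, Nat.cofinite_eq_atTop, Filter.prod_sup, Filter.tendsto_sup,
      Filter.prod_map_right, Filter.tendsto_map'_iff, Filter.prod_pure, Filter.tendsto_map'_iff]
    exact ⟨h2 y0, tendsto_const_nhds⟩
  | coe n =>
    rw [ContinuousAt, nhds_prod_eq, OnePoint.nhds_coe_eq, nhds_discrete ℕ, Filter.map_pure,
      Filter.prod_pure, Filter.tendsto_map'_iff]
    exact (h1 n).tendsto y0

theorem ex_mem {u : Y → ℕ → ℝ} (h1 : ∀ n, Continuous fun y => u y n)
    (h2 : ∀ y0, Tendsto (fun p : Y × ℕ => u p.1 p.2) (𝓝 y0 ×ˢ atTop) (𝓝 0)) : ex u ∈ Cz Y :=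
  ⟨ex_cont h1 h2, ex_infty u⟩

theorem cz1 (f : Cz Y) (n : ℕ) : Continuous fun y => f.1 (y, (n : OnePoint ℕ)) :=
  f.2.1.comp (by fun_prop)

theorem cz2 (f : Cz Y) (y0 : Y) :
    Tendsto (fun p : Y × ℕ => f.1 (p.1, (p.2 : OnePoint ℕ))) (𝓝 y0 ×ˢ atTop) (𝓝 0) := by
  have h1 := f.2.1.tendsto (y0, OnePoint.infty)
  rw [f.2.2 y0, nhds_prod_eq] at h1
  exact h1.comp (tendsto_fst.prodMk (coe_tendsto.comp tendsto_snd))

theorem cz2' (f : Cz Y) (y0 : Y) {g : ℕ → ℕ} (hg : Tendsto g atTop atTop) :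
    Tendsto (fun p : Y × ℕ => f.1 (p.1, (g p.2 : OnePoint ℕ))) (𝓝 y0 ×ˢ atTop) (𝓝 0) :=
  (cz2 f y0).comp (tendsto_fst.prodMk (hg.comp tendsto_snd))

theorem ev {X : Type} [TopologicalSpace X] {S : Submodule ℝ (X → ℝ)} (x : X) :
    Continuous fun f : S => f.1 x :=
  (continuous_apply x).comp continuous_subtype_val

/-- (1) -/
noncomputable def e1 : ↥(Cp (Y × OnePoint ℕ)) ≃L[ℝ] (↥(Cp Y) × ↥(Cz Y)) where
  toFun f := (⟨fun y => f.1 (y, OnePoint.infty), (show Continuous f.1 from f.2).comp (by fun_prop)⟩,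
    ⟨fun p => f.1 p - f.1 (p.1, OnePoint.infty),
      (show Continuous f.1 from f.2).sub ((show Continuous f.1 from f.2).comp (by fun_prop)),
      fun y => sub_self _⟩)
  invFun q := ⟨fun p => q.1.1 p.1 + q.2.1 p,
    ((show Continuous q.1.1 from q.1.2).comp continuous_fst).add q.2.2.1⟩
  map_add' f g := by
    refine Prod.ext (Subtype.ext rfl) (Subtype.ext ?_)
    funext p
    show (f.1 p + g.1 p) - (f.1 (p.1, OnePoint.infty) + g.1 (p.1, OnePoint.infty)) = _
    rw [add_sub_add_comm]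
    rfl
  map_smul' c f := by
    refine Prod.ext (Subtype.ext rfl) (Subtype.ext ?_)
    funext p
    show c * f.1 p - c * f.1 (p.1, OnePoint.infty) = _
    rw [← mul_sub]
    rfl
  left_inv f := by
    refine Subtype.ext ?_
    funext p
    show f.1 (p.1, OnePoint.infty) + (f.1 p - f.1 (p.1, OnePoint.infty)) = f.1 p
    rw [add_sub_cancel]
  right_inv q := by
    refine Prod.ext (Subtype.ext ?_) (Subtype.ext ?_)
    · funext y
      show q.1.1 y + q.2.1 (y, OnePoint.infty) = q.1.1 y
      rw [q.2.2.2 y, add_zero]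
    · funext p
      show q.1.1 p.1 + q.2.1 p - (q.1.1 p.1 + q.2.1 (p.1, OnePoint.infty)) = q.2.1 p
      rw [q.2.2.2 p.1, add_zero, add_sub_cancel_left]
  continuous_toFun := by
    refine Continuous.prodMk ?_ ?_
    · exact Continuous.subtype_mk (continuous_pi fun y => ev _) _
    · exact Continuous.subtype_mk (continuous_pi fun p => (ev _).sub (ev _)) _
  continuous_invFun := Continuous.subtype_mk (continuous_pi fun p =>
    ((ev _).comp continuous_fst).add ((ev _).comp continuous_snd)) _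

/-- the sequence of the inverse in (2) -/
noncomputable def u2 (q : ↥(Cp Y) × ↥(Cz Y)) (y : Y) (n : ℕ) : ℝ :=
  if n = 0 then q.1.1 y else q.2.1 (y, ((n - 1 : ℕ) : OnePoint ℕ))

theorem u2_mem (q : ↥(Cp Y) × ↥(Cz Y)) : ex (u2 q) ∈ Cz Y := by
  refine ex_mem (fun n => ?_) fun y0 => ?_
  · unfold u2
    by_cases h : n = 0
    · simp only [if_pos h]
      exact q.1.2
    · simp only [if_neg h]
      exact cz1 q.2 _
  · have h1 : Tendsto (fun n : ℕ => n - 1) atTop atTop := tendsto_sub_atTop_nat 1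
    refine (cz2' q.2 y0 h1).congr' ?_
    have h2 : ∀ᶠ p : Y × ℕ in 𝓝 y0 ×ˢ atTop, 1 ≤ p.2 :=
      tendsto_snd.eventually (eventually_ge_atTop 1)
    filter_upwards [h2] with p hp
    unfold u2
    rw [if_neg (by omega)]

/-- the map of (2) -/
noncomputable def t2 (f : ↥(Cz Y)) : ↥(Cp Y) × ↥(Cz Y) :=
  (⟨fun y => f.1 (y, ((0 : ℕ) : OnePoint ℕ)), cz1 f 0⟩,
    ⟨ex fun y n => f.1 (y, ((n + 1 : ℕ) : OnePoint ℕ)),
      ex_mem (fun n => cz1 f _) fun y0 => cz2' f y0 (tendsto_add_atTop_nat 1)⟩)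

/-- (2) -/
noncomputable def e2 : ↥(Cz Y) ≃L[ℝ] (↥(Cp Y) × ↥(Cz Y)) where
  toFun f := t2 f
  invFun q := ⟨ex (u2 q), u2_mem q⟩
  map_add' f g := by
    refine Prod.ext (Subtype.ext rfl) (Subtype.ext (fun_ext (fun y => ?_) fun y n => rfl))
    exact (add_zero (0 : ℝ)).symm
  map_smul' c f := by
    refine Prod.ext (Subtype.ext rfl) (Subtype.ext (fun_ext (fun y => ?_) fun y n => rfl))
    exact (mul_zero c).symm
  left_inv f := by
    refine Subtype.ext (fun_ext (fun y => ?_) fun y n => ?_)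
    · exact (f.2.2 y).symm
    · show u2 (t2 f) y n = f.1 (y, (n : OnePoint ℕ))
      unfold u2
      by_cases h : n = 0
      · rw [if_pos h, h]
        rfl
      · rw [if_neg h]
        show f.1 (y, ((n - 1 + 1 : ℕ) : OnePoint ℕ)) = f.1 (y, (n : OnePoint ℕ))
        rw [Nat.sub_add_cancel (Nat.one_le_iff_ne_zero.2 h)]
  right_inv q := by
    refine Prod.ext (Subtype.ext rfl) (Subtype.ext (fun_ext (fun y => ?_) fun y n => ?_))
    · exact (q.2.2.2 y).symm
    · show u2 q y (n + 1) = q.2.1 (y, (n : OnePoint ℕ))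
      unfold u2
      rw [if_neg (Nat.succ_ne_zero n), Nat.add_sub_cancel]
  continuous_toFun := by
    refine Continuous.prodMk ?_ ?_
    · exact Continuous.subtype_mk (continuous_pi fun y => ev _) _
    · refine Continuous.subtype_mk (continuous_pi fun p => ?_) _
      obtain ⟨y, x⟩ := p
      induction x using OnePoint.rec with
      | infty => exact continuous_const
      | coe n => exact ev _
  continuous_invFun := by
    refine Continuous.subtype_mk (continuous_pi fun p => ?_) _
    obtain ⟨y, x⟩ := p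
    induction x using OnePoint.rec with
    | infty => exact continuous_const
    | coe n =>
      simp only [ex_coe]
      unfold u2
      by_cases h : n = 0
      · simp only [if_pos h]
        exact (ev _).comp continuous_fst
      · simp only [if_neg h]
        exact (ev _).comp continuous_snd

/-- the sequence of the inverse in (3) -/
noncomputable def u3 (q : ↥(Cz Y) × ↥(Cz Y)) (y : Y) (n : ℕ) : ℝ :=
  if n % 2 = 0 then q.1.1 (y, ((n / 2 : ℕ) : OnePoint ℕ)) else q.2.1 (y, ((n / 2 : ℕ) : OnePoint ℕ))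

theorem u3_mem (q : ↥(Cz Y) × ↥(Cz Y)) : ex (u3 q) ∈ Cz Y := by
  refine ex_mem (fun n => ?_) fun y0 => ?_
  · unfold u3
    by_cases h : n % 2 = 0
    · simp only [if_pos h]
      exact cz1 q.1 _
    · simp only [if_neg h]
      exact cz1 q.2 _
  · have h1 : Tendsto (fun n : ℕ => n / 2) atTop atTop := Nat.tendsto_div_const_atTop (by norm_num)
    exact Tendsto.if' (cz2' q.1 y0 h1) (cz2' q.2 y0 h1)

/-- the map of (3) -/
noncomputable def t3 (f : ↥(Cz Y)) : ↥(Cz Y) × ↥(Cz Y) :=
  (⟨ex fun y n => f.1 (y, ((2 * n : ℕ) : OnePoint ℕ)),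
      ex_mem (fun n => cz1 f _) fun y0 => cz2' f y0 (tendsto_id.const_mul_atTop' (by norm_num))⟩,
    ⟨ex fun y n => f.1 (y, ((2 * n + 1 : ℕ) : OnePoint ℕ)),
      ex_mem (fun n => cz1 f _) fun y0 => cz2' f y0
        ((tendsto_add_atTop_nat 1).comp (tendsto_id.const_mul_atTop' (by norm_num)))⟩)

/-- (3) -/
noncomputable def e3 : ↥(Cz Y) ≃L[ℝ] (↥(Cz Y) × ↥(Cz Y)) where
  toFun f := t3 f
  invFun q := ⟨ex (u3 q), u3_mem q⟩
  map_add' f g := by
    refine Prod.ext (Subtype.ext (fun_ext (fun y => ?_) fun y n => rfl))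
      (Subtype.ext (fun_ext (fun y => ?_) fun y n => rfl))
    · exact (add_zero (0 : ℝ)).symm
    · exact (add_zero (0 : ℝ)).symm
  map_smul' c f := by
    refine Prod.ext (Subtype.ext (fun_ext (fun y => ?_) fun y n => rfl))
      (Subtype.ext (fun_ext (fun y => ?_) fun y n => rfl))
    · exact (mul_zero c).symm
    · exact (mul_zero c).symm
  left_inv f := by
    refine Subtype.ext (fun_ext (fun y => ?_) fun y n => ?_)
    · exact (f.2.2 y).symm
    · show u3 (t3 f) y n = f.1 (y, (n : OnePoint ℕ))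
      unfold u3
      by_cases h : n % 2 = 0
      · rw [if_pos h]
        show f.1 (y, ((2 * (n / 2) : ℕ) : OnePoint ℕ)) = f.1 (y, (n : OnePoint ℕ))
        rw [show 2 * (n / 2) = n by omega]
      · rw [if_neg h]
        show f.1 (y, ((2 * (n / 2) + 1 : ℕ) : OnePoint ℕ)) = f.1 (y, (n : OnePoint ℕ))
        rw [show 2 * (n / 2) + 1 = n by omega]
  right_inv q := by
    refine Prod.ext (Subtype.ext (fun_ext (fun y => ?_) fun y n => ?_))
      (Subtype.ext (fun_ext (fun y => ?_) fun y n => ?_))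
    · exact (q.1.2.2 y).symm
    · show ex (u3 q) (y, ((2 * n : ℕ) : OnePoint ℕ)) = q.1.1 (y, (n : OnePoint ℕ))
      rw [ex_coe]
      unfold u3
      rw [if_pos (by omega), show 2 * n / 2 = n by omega]
    · exact (q.2.2.2 y).symm
    · show ex (u3 q) (y, ((2 * n + 1 : ℕ) : OnePoint ℕ)) = q.2.1 (y, (n : OnePoint ℕ))
      rw [ex_coe]
      unfold u3
      rw [if_neg (by omega), show (2 * n + 1) / 2 = n by omega]
  continuous_toFun := by
    refine Continuous.prodMk ?_ ?_
    · refine Continuous.subtype_mk (continuous_pi fun p => ?_) _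
      obtain ⟨y, x⟩ := p
      induction x using OnePoint.rec with
      | infty => exact continuous_const
      | coe n => exact ev _
    · refine Continuous.subtype_mk (continuous_pi fun p => ?_) _
      obtain ⟨y, x⟩ := p
      induction x using OnePoint.rec with
      | infty => exact continuous_const
      | coe n => exact ev _
  continuous_invFun := by
    refine Continuous.subtype_mk (continuous_pi fun p => ?_) _
    obtain ⟨y, x⟩ := p
    induction x using OnePoint.rec with
    | infty => exact continuous_const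
    | coe n =>
      simp only [ex_coe]
      unfold u3
      by_cases h : n % 2 = 0
      · simp only [if_pos h]
        exact (ev _).comp continuous_fst
      · simp only [if_neg h]
        exact (ev _).comp continuous_snd

theorem cze : CzeStmt := fun _ _ => ⟨⟨e1⟩, ⟨e2⟩, ⟨e3⟩⟩

end Pool.Agent.LSG.H27
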