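import Pool.Agent.LSG.Stmts

/-!
Squad LSG (MP_005a41_gt), row MUK: Haar measure of the Cantor group.
-/

set_option autoImplicit false

open MeasureTheory Set Topology

namespace Pool.Agent.LSG.H27

theorem muk : MukStmt := by
  haveI h1 : mu.IsAddHaarMeasure := by unfold mu; infer_instance
  haveI h2 : mu.Regular := by unfold mu; infer_instance
  have h3 : mu univ = 1 := by
    have := Measure.addHaarMeasure_self (K₀ := (⊤ : TopologicalSpace.PositiveCompacts K))
    rwa [TopologicalSpace.PositiveCompacts.coe_top] at this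
  haveI h4 : IsProbabilityMeasure mu := ⟨h3⟩
  have h5 : ∀ (x : K) (E : Set K), mu ((fun y => x + y) ⁻¹' E) = mu E := fun x E =>
    measure_preimage_add mu x E
  refine ⟨h4, h5, ?_, ?_⟩
  · intro x
    by_contra hx
    have h6 : mu (univ : Set K) = ⊤ := by
      refine Set.Infinite.meas_eq_top Set.infinite_univ ⟨mu {x}, hx, fun y _ => ?_⟩
      rw [← h5 (x - y) {x}]
      refine measure_mono ?_
      intro z hz
      simp only [mem_preimage, mem_singleton_iff] at hz ⊢
      exact (eq_sub_of_add_eq' hz).trans (sub_sub_cancel x y)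
    rw [h3] at h6
    exact ENNReal.one_ne_top h6
  · intro E hE hpos
    obtain ⟨C, hC, hC', hC''⟩ := hE.exists_lt_isCompact_of_ne_top (measure_ne_top mu E) hpos
    exact ⟨C, hC, hC', hC''⟩

end Pool.Agent.LSG.H27
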